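import Pool.Agent.Helper75.PX.Stmts

/-!
Row SIMP of project PX: the tensor product of a simple algebra with a central simple algebra is
simple (no finiteness of dimension is assumed).
-/

universe u

namespace Pool.Agent.Helper75.PX

open Module TensorProduct

section SIMPaux

variable {K C A : Type u} [Field K] [Ring C] [Algebra K C] [Ring A] [Algebra K A]
variable {ι : Type u} [DecidableEq ι]

theorem SIMP_left (b : Basis ι K C) (a : A) (x : C ⊗[K] A) (i : ι) :
    TensorProduct.equivFinsuppOfBasisLeft b (((1 : C) ⊗ₜ[K] a) * x) i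
      = a * TensorProduct.equivFinsuppOfBasisLeft b x i := by
  induction x with
  | zero => simp
  | tmul c a' =>
    rw [Algebra.TensorProduct.tmul_mul_tmul, one_mul,
      TensorProduct.equivFinsuppOfBasisLeft_apply_tmul_apply,
      TensorProduct.equivFinsuppOfBasisLeft_apply_tmul_apply, mul_smul_comm]
  | add x y hx hy =>
    rw [mul_add, map_add, Finsupp.add_apply, hx, hy, map_add, Finsupp.add_apply, mul_add]

theorem SIMP_right (b : Basis ι K C) (a : A) (x : C ⊗[K] A) (i : ι) :
    TensorProduct.equivFinsuppOfBasisLeft b (x * ((1 : C) ⊗ₜ[K] a)) i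
      = TensorProduct.equivFinsuppOfBasisLeft b x i * a := by
  induction x with
  | zero => simp
  | tmul c a' =>
    rw [Algebra.TensorProduct.tmul_mul_tmul, mul_one,
      TensorProduct.equivFinsuppOfBasisLeft_apply_tmul_apply,
      TensorProduct.equivFinsuppOfBasisLeft_apply_tmul_apply, smul_mul_assoc]
  | add x y hx hy =>
    rw [add_mul, map_add, Finsupp.add_apply, hx, hy, map_add, Finsupp.add_apply, add_mul]

theorem SIMP_key [Algebra.IsCentral K A] [IsSimpleRing A] (b : Basis ι K C)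
    (I : TwoSidedIdeal (C ⊗[K] A))
    (hI : ∃ x ∈ I, x ≠ 0) :
    ∃ c : C, c ≠ 0 ∧ (c ⊗ₜ[K] (1 : A)) ∈ I := by
  classical
  have hex : ∃ n : ℕ, ∃ x ∈ I, x ≠ 0 ∧
      (TensorProduct.equivFinsuppOfBasisLeft b x).support.card = n := by
    obtain ⟨x, hx, hx0⟩ := hI
    exact ⟨_, x, hx, hx0, rfl⟩
  obtain ⟨x, hxI, hx0, hxn⟩ := Nat.find_spec hex
  have hmin : ∀ y ∈ I,
      (TensorProduct.equivFinsuppOfBasisLeft b y).support.card < Nat.find hex → y = 0 := by
    intro y hy hc
    by_contra hy0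
    exact Nat.find_min hex hc ⟨y, hy, hy0, rfl⟩
  have hex0 : TensorProduct.equivFinsuppOfBasisLeft b x ≠ 0 := by
    intro h
    exact hx0 ((TensorProduct.equivFinsuppOfBasisLeft b).map_eq_zero_iff.mp h)
  obtain ⟨i0, hi0⟩ := Finsupp.support_nonempty_iff.mpr hex0
  let J : TwoSidedIdeal A := TwoSidedIdeal.mk'
    {a | ∃ y ∈ I, (∀ i, TensorProduct.equivFinsuppOfBasisLeft b x i = 0 →
        TensorProduct.equivFinsuppOfBasisLeft b y i = 0) ∧
        TensorProduct.equivFinsuppOfBasisLeft b y i0 = a}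
    ⟨0, I.zero_mem, by simp, by simp⟩
    (by
      rintro a a' ⟨y, hy, hys, rfl⟩ ⟨y', hy', hys', rfl⟩
      refine ⟨y + y', I.add_mem hy hy', fun i hi => ?_, ?_⟩
      · rw [map_add, Finsupp.add_apply, hys i hi, hys' i hi, add_zero]
      · rw [map_add, Finsupp.add_apply])
    (by
      rintro a ⟨y, hy, hys, rfl⟩
      refine ⟨-y, I.neg_mem hy, fun i hi => ?_, ?_⟩
      · rw [map_neg, Finsupp.neg_apply, hys i hi, neg_zero]
      · rw [map_neg, Finsupp.neg_apply])
    (by
      rintro r a ⟨y, hy, hys, rfl⟩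
      refine ⟨((1 : C) ⊗ₜ[K] r) * y, I.mul_mem_left _ _ hy, fun i hi => ?_, ?_⟩
      · rw [SIMP_left, hys i hi, mul_zero]
      · rw [SIMP_left])
    (by
      rintro a r ⟨y, hy, hys, rfl⟩
      refine ⟨y * ((1 : C) ⊗ₜ[K] r), I.mul_mem_right _ _ hy, fun i hi => ?_, ?_⟩
      · rw [SIMP_right, hys i hi, zero_mul]
      · rw [SIMP_right])
  have h1 : (1 : A) ∈ J := by
    refine IsSimpleRing.one_mem_of_ne_zero_mem (x := TensorProduct.equivFinsuppOfBasisLeft b x i0)
      J (Finsupp.mem_support_iff.mp hi0) ?_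
    rw [TwoSidedIdeal.mem_mk']
    exact ⟨x, hxI, fun i hi => hi, rfl⟩
  rw [TwoSidedIdeal.mem_mk'] at h1
  obtain ⟨y, hyI, hys, hy1⟩ := h1
  -- all coordinates of y are central
  have hcomm : ∀ a : A, ((1 : C) ⊗ₜ[K] a) * y - y * ((1 : C) ⊗ₜ[K] a) = 0 := by
    intro a
    refine hmin _ (I.sub_mem (I.mul_mem_left _ _ hyI) (I.mul_mem_right _ _ hyI)) ?_
    rw [← hxn]
    refine Finset.card_lt_card ?_
    refine Finset.ssubset_iff_subset_ne.mpr ⟨?_, ?_⟩
    · intro i hi
      rw [Finsupp.mem_support_iff] at hi ⊢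
      intro h0
      apply hi
      rw [map_sub, Finsupp.sub_apply, SIMP_left, SIMP_right, hys i h0, mul_zero, zero_mul, sub_zero]
    · intro heq
      rw [← heq, Finsupp.mem_support_iff] at hi0
      apply hi0
      rw [map_sub, Finsupp.sub_apply, SIMP_left, SIMP_right, hy1, mul_one, one_mul, sub_self]
  have hcent : ∀ i, ∃ k : K, TensorProduct.equivFinsuppOfBasisLeft b y i = algebraMap K A k := by
    intro i
    have hm : TensorProduct.equivFinsuppOfBasisLeft b y i ∈ Subalgebra.center K A := by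
      rw [Subalgebra.mem_center_iff]
      intro a
      have h := congrArg (fun z => TensorProduct.equivFinsuppOfBasisLeft b z i) (hcomm a)
      simp only [map_sub, Finsupp.sub_apply, SIMP_left, SIMP_right, map_zero, Finsupp.coe_zero,
        Pi.zero_apply] at h
      exact sub_eq_zero.mp h
    have hb := (Algebra.IsCentral.out (K := K) (D := A)) hm
    obtain ⟨k, hk⟩ := Algebra.mem_bot.mp hb
    exact ⟨k, hk.symm⟩
  choose k hk using hcent
  have hy : y = (∑ i ∈ (TensorProduct.equivFinsuppOfBasisLeft b y).support, k i • b i) ⊗ₜ[K]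
      (1 : A) := by
    have h := (TensorProduct.equivFinsuppOfBasisLeft b).symm_apply_apply y
    rw [TensorProduct.equivFinsuppOfBasisLeft_symm_apply, Finsupp.sum] at h
    rw [TensorProduct.sum_tmul]
    conv_lhs => rw [← h]
    refine Finset.sum_congr rfl fun i _ => ?_
    rw [hk i, Algebra.algebraMap_eq_smul_one, TensorProduct.smul_tmul]
  refine ⟨∑ i ∈ (TensorProduct.equivFinsuppOfBasisLeft b y).support, k i • b i, ?_, ?_⟩
  · intro h0
    rw [h0, TensorProduct.zero_tmul] at hy
    rw [hy, map_zero, Finsupp.coe_zero, Pi.zero_apply] at hy1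
    exact zero_ne_one hy1
  · rw [← hy]
    exact hyI

end SIMPaux

theorem st_SIMP : ST_SIMP.{u} := by
  intro K C A _ _ _ _ _ hC hcen hA
  classical
  have b := Basis.ofVectorSpace K C
  have : Nontrivial (C ⊗[K] A) := by
    refine ⟨⟨(1 : C) ⊗ₜ[K] (1 : A), 0, ?_⟩⟩
    intro h
    have h2 : ∀ i, b.repr (1 : C) i • (1 : A) = 0 := by
      intro i
      rw [← TensorProduct.equivFinsuppOfBasisLeft_apply_tmul_apply, h, map_zero, Finsupp.coe_zero,
        Pi.zero_apply]
    have h3 : b.repr (1 : C) = 0 := by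
      ext i
      have h4 := h2 i
      rcases smul_eq_zero.mp h4 with h5 | h5
      · exact h5
      · exact absurd h5 one_ne_zero
    exact one_ne_zero (b.repr.map_eq_zero_iff.mp h3)
  refine IsSimpleRing.of_eq_bot_or_eq_top fun I => ?_
  by_cases hI : ∃ x ∈ I, x ≠ 0
  · right
    obtain ⟨c, hc0, hc⟩ := SIMP_key b I hI
    have h1 : (1 : C) ∈ I.comap (Algebra.TensorProduct.includeLeft : C →ₐ[K] C ⊗[K] A) := by
      refine IsSimpleRing.one_mem_of_ne_zero_mem _ hc0 ?_
      rw [TwoSidedIdeal.mem_comap]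
      simpa using hc
    rw [TwoSidedIdeal.mem_comap, map_one] at h1
    rw [eq_top_iff]
    intro z _
    have := I.mul_mem_left z 1 h1
    rwa [mul_one] at this
  · left
    push Not at hI
    rw [eq_bot_iff]
    intro z hz
    rw [TwoSidedIdeal.mem_bot]
    exact hI z hz

end Pool.Agent.Helper75.PX
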